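import Mathlib
import Pool.Agent.Work.MP_ee811a_an.Main

set_option autoImplicit false

open MeasureTheory Topology Pool.Agent.Work.MP_ee811a_an

/-- There is a simplex `X` whose set of extreme points is `F_σ` (hence `K`-analytic) and such that
the map `T`, which sends a point to the maximal measure representing it, is not a pointwise limit
of a sequence of continuous maps. -/
theorem Pool.Agent.Results.MP_ee811a_an.FsigmaBoundary.result :
    ∃ (E : Type) (_ : AddCommGroup E) (_ : Module ℝ E) (_ : TopologicalSpace E)
      (_ : IsTopologicalAddGroup E) (_ : ContinuousSMul ℝ E) (_ : LocallyConvexSpace ℝ E)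
      (_ : T2Space E) (X : Set E),
      IsCompact X ∧ Convex ℝ X ∧ IsSimplex X ∧
      IsFsigma (extBoundary X) ∧ IsKAnalytic (extBoundary X) ∧
      ∀ T : X → RadonProb X, (∀ x, IsMaximal (T x) ∧ Represents (T x) x) → ¬ IsBaireOne T := by
  have had : ∀ x y : ℕ → Bool, x ≠ y → (br x ∩ br y).Finite := fun x y h => br_ad h
  exact ⟨(ℕ → Bool) ⊕ ℕ → ℝ, inferInstance, inferInstance, inferInstance, inferInstance,
    inferInstance, inferInstance, inferInstance, XX br, isCompact_XX, convex_XX,
    isSimplex_XX had, isFsigma_ext had, (isFsigma_ext had).isKAnalytic,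
    fun T hT => not_baireOne br_infinite had uncountable_index T hT⟩
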